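import Pool.Agent.H24.Ts5

namespace Pool.Agent.Results.MP_18867f_lc.InP

open Pool.Agent.H38.NP

/-- The multigraph with end map `ends` is the one listed in `p = (n, edge list)`. -/
def Codes (p : ℕ × List (ℕ × ℕ)) (ends : Fin p.2.length → Sym2 (Fin p.1)) : Prop :=
  ∀ i, (ends i).map Fin.val = s((p.2.get i).1, (p.2.get i).2)

/-- `T` is the edge set of a spanning tree. -/
def SpTree {V E : Type} (ends : E → Sym2 V) (T : Set E) : Prop :=
  Set.InjOn ends T ∧ (SimpleGraph.fromEdgeSet (ends '' T)).IsTree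

/-- Loopless, and the edge set is the union of two edge-disjoint spanning trees. -/
def TwoT {V E : Type} (ends : E → Sym2 V) : Prop :=
  (∀ e, ¬ (ends e).IsDiag) ∧
    ∃ T₁ T₂ : Set E, SpTree ends T₁ ∧ SpTree ends T₂ ∧ Disjoint T₁ T₂ ∧ T₁ ∪ T₂ = Set.univ

/-- `B` is a branching with root `r`, where `arc e v` says that the arc `e` counts at `v`. -/
def Br {V E : Type} (arc : E → V → Prop) (B : Set E) (r : V) : Prop :=
  (∀ e ∈ B, ¬ arc e r) ∧ ∀ v, v ≠ r → ∃! e, e ∈ B ∧ arc e v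

/-- Some linear order gives arc-disjoint out- and in-branchings. -/
def GoodOrd {V E : Type} (ends : E → Sym2 V) : Prop :=
  ∃ (o : LinearOrder V) (O I : Set E) (r r' : V), Disjoint O I ∧
    Br (fun e v => ∃ u, ends e = s(u, v) ∧ o.lt u v) O r ∧
    Br (fun e v => ∃ u, ends e = s(u, v) ∧ o.lt v u) I r'

open Pool.Agent.H24

lemma br_of {V E : Type} {ends : E → Sym2 V} {f : V → ℚ} {p : V → E} {s : V}
    (hp : ∀ v, v ≠ s → ∃ u, ends (p v) = s(u, v) ∧ f u < f v) :
    Br (fun e v => ∃ u, ends e = s(u, v) ∧ f u < f v) (p '' {v | v ≠ s}) s := by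
  have key : ∀ v w, v ≠ s → (∃ u, ends (p v) = s(u, w) ∧ f u < f w) → v = w := by
    rintro v w hv ⟨u, k1, k2⟩
    obtain ⟨a, a1, a2⟩ := hp v hv
    rw [a1] at k1
    rcases Sym2.eq_iff.mp k1 with ⟨_, k⟩ | ⟨m1, m2⟩
    · exact k
    · rw [m1, m2] at a2
      exact absurd (a2.trans k2) (lt_irrefl _)
  refine ⟨?_, fun v hv => ⟨p v, ⟨⟨v, hv, rfl⟩, hp v hv⟩, ?_⟩⟩
  · rintro _ ⟨v, hv, rfl⟩ k
    exact hv (key v s hv k)
  · rintro _ ⟨⟨w, hw, rfl⟩, k⟩
    rw [key w v hw k]

lemma good_iff {n m : ℕ} {ends : Fin m → Sym2 (Fin n)} (hE : m + 2 = 2 * n) :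
    GoodOrd ends ↔ n = 1 ∨ ∃ s t, s ≠ t ∧ Ts.GoodE ends s t := by
  constructor
  · rintro ⟨o, O, I, s, t, hd, ⟨-, h1⟩, -, h2⟩
    by_cases hn : n = 1
    · exact Or.inl hn
    right
    have : Nonempty (Fin m) := ⟨⟨0, by omega⟩⟩
    obtain ⟨f, hf⟩ : ∃ f : Fin n → ℚ, ∀ a b, o.lt a b → f a < f b := by
      classical
      refine ⟨fun v => ((Finset.univ.filter (fun u => o.lt u v)).card : ℚ), fun a b k => ?_⟩
      rw [Nat.cast_lt]
      apply Finset.card_lt_card
      rw [Finset.ssubset_iff_of_subset]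
      · exact ⟨a, by simpa using k, by simp⟩
      · intro x hx
        simp only [Finset.mem_filter, Finset.mem_univ, true_and] at hx ⊢
        exact @lt_trans _ o.toPreorder _ _ _ hx k
    have hinj : Function.Injective f := fun a b k => by
      rcases @lt_trichotomy _ o a b with l | l | l
      · exact absurd k (hf a b l).ne
      · exact l
      · exact absurd k (hf b a l).ne'
    choose! p hp using fun v hv => (h1 v hv).exists
    choose! q hq using fun v hv => (h2 v hv).exists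
    refine ⟨s, t, ?_, f, p, q, hinj, fun v hv => ?_, fun v hv => ?_, fun v w hv hw k => ?_⟩
    · rintro rfl
      have : Nonempty (Fin n) := ⟨s⟩
      obtain ⟨lo, l⟩ := Finite.exists_min f
      obtain ⟨hi, u⟩ := Finite.exists_max f
      have a1 : lo = s := by
        by_contra k
        obtain ⟨x, -, k2⟩ := (hp lo k).2
        exact absurd (l x) (not_le.mpr (hf _ _ k2))
      have a2 : hi = s := by
        by_contra k
        obtain ⟨x, -, k2⟩ := (hq hi k).2
        exact absurd (u x) (not_le.mpr (hf _ _ k2))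
      subst a1
      subst a2
      have := hinj (le_antisymm ((u ⟨0, by omega⟩).trans (l ⟨1, by omega⟩))
        ((u ⟨1, by omega⟩).trans (l ⟨0, by omega⟩)))
      simp at this
    · obtain ⟨x, k1, k2⟩ := (hp v hv).2
      exact ⟨x, k1, hf _ _ k2⟩
    · obtain ⟨x, k1, k2⟩ := (hq v hv).2
      exact ⟨x, k1, hf _ _ k2⟩
    · exact Set.disjoint_left.mp hd (hp v hv).1 (k ▸ (hq w hw).1)
  · rintro (rfl | ⟨s, t, -, f, p, q, hf, hp, hq, hd⟩)
    · exact ⟨inferInstance, ∅, ∅, 0, 0, by simp, ⟨by simp, fun v hv => absurd (Subsingleton.elim _ _) hv⟩,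
        by simp, fun v hv => absurd (Subsingleton.elim _ _) hv⟩
    · refine ⟨LinearOrder.lift' f hf, _, q '' {v | v ≠ t}, s, t, ?_, br_of hp, ?_⟩
      · rw [Set.disjoint_left]
        rintro _ ⟨v, hv, rfl⟩ ⟨w, hw, k⟩
        exact hd v w hv hw k.symm
      · have := br_of (f := fun x => - f x) (fun v hv => by simpa using hq v hv)
        simp only [neg_lt_neg_iff] at this
        exact this

theorem result : InPOn (fun p : ℕ × List (ℕ × ℕ) => ∃ ends, Codes p ends ∧ TwoT ends)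
    (fun p => ∃ ends, Codes p ends ∧ GoodOrd ends) := by
  refine inPOn_of_pt (fun p => Ts.algo p.1 p.2) (Ts.pt_algo (by fun_prop) (by fun_prop)) ?_
  rintro ⟨n, L⟩ ⟨ends, h1, hl, h2⟩
  have hE := Ts.TwoT.card hl h2
  simp only [Fintype.card_fin] at hE
  rw [Ts.algo_iff h1 hl h2, ← good_iff hE]
  refine ⟨fun ⟨ends', k1, k2⟩ => ?_, fun k => ⟨ends, h1, k⟩⟩
  have : ends' = ends := funext fun i =>
    Sym2.map.injective Fin.val_injective ((k1 i).trans (h1 i).symm)
  exact this ▸ k2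

end Pool.Agent.Results.MP_18867f_lc.InP
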